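import Mathlib

/-!
# Circumradius of Minkowski sums with respect to the unit balls of the p-norms

For every real `p > 2` the inequality
`R(K_1 + ... + K_j, B_p) >= ‖(R(K_1, B_p), ..., R(K_j, B_p))‖_p` fails, already for two
convex bodies (simplices in the space of square matrices).
-/

open scoped Pointwise

namespace Pool.Agent.Results.MP_a85856_gt.FailsForEveryP

/-- The p-norm `(∑ |x i| ^ p) ^ (1 / p)` of a finite real vector. -/
noncomputable def lpNorm {m : ℕ} (p : ℝ) (x : Fin m → ℝ) : ℝ :=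
  (∑ i, |x i| ^ p) ^ (1 / p)

/-- The closed unit ball of the p-norm in real n-space. -/
def unitBall (n : ℕ) (p : ℝ) : Set (Fin n → ℝ) := {x | lpNorm p x ≤ 1}

/-- A convex body: a nonempty compact convex set (not necessarily with interior points). -/
def IsConvexBody {n : ℕ} (K : Set (Fin n → ℝ)) : Prop :=
  K.Nonempty ∧ IsCompact K ∧ Convex ℝ K

/-- The circumradius of `K` with respect to `C`: the infimum of all `r ≥ 0` such that `K` is
contained in a translate of `r C`. -/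
noncomputable def circumradius {n : ℕ} (K C : Set (Fin n → ℝ)) : ℝ :=
  sInf {r : ℝ | 0 ≤ r ∧ ∃ t : Fin n → ℝ, K ⊆ {t} + r • C}

/-! ### Elementary facts on the p-norm -/

theorem sum_nonneg' {m : ℕ} (p : ℝ) (x : Fin m → ℝ) : 0 ≤ ∑ i, |x i| ^ p :=
  Finset.sum_nonneg fun _ _ => Real.rpow_nonneg (abs_nonneg _) _

theorem mem_unitBall {n : ℕ} {p : ℝ} (hp : 0 < p) {x : Fin n → ℝ} :
    x ∈ unitBall n p ↔ ∑ i, |x i| ^ p ≤ 1 := by
  have h0 := sum_nonneg' p x
  show (∑ i, |x i| ^ p) ^ (1 / p) ≤ 1 ↔ _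
  have h1 : (1 : ℝ) ^ (1 / p) = 1 := Real.one_rpow _
  have h2 := Real.rpow_le_rpow_iff h0 zero_le_one (show 0 < 1 / p by positivity)
  rwa [h1] at h2

/-- Membership in a translate of `r B_p`, necessary condition. -/
theorem sum_le_of_mem {n : ℕ} {p r : ℝ} (hp : 0 < p) (hr : 0 ≤ r) {t x : Fin n → ℝ}
    (hx : x ∈ ({t} : Set (Fin n → ℝ)) + r • unitBall n p) :
    ∑ i, |x i - t i| ^ p ≤ r ^ p := by
  obtain ⟨t', ht', y, ⟨b, hb, rfl⟩, rfl⟩ := hx
  rw [Set.mem_singleton_iff] at ht'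
  subst ht'
  rw [mem_unitBall hp] at hb
  have : ∀ i, |(t' + (fun x => r • x) b) i - t' i| ^ p = r ^ p * |b i| ^ p := by
    intro i
    have e : (t' + (fun x => r • x) b) i - t' i = r * b i := by simp
    rw [e, abs_mul, abs_of_nonneg hr, Real.mul_rpow hr (abs_nonneg _)]
  rw [Finset.sum_congr rfl fun i _ => this i, ← Finset.mul_sum]
  calc r ^ p * ∑ i, |b i| ^ p ≤ r ^ p * 1 :=
        mul_le_mul_of_nonneg_left hb (Real.rpow_nonneg hr _)
    _ = r ^ p := mul_one _

/-- Membership in a translate of `r B_p`, sufficient condition. -/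
theorem mem_of_sum_le {n : ℕ} {p r : ℝ} (hp : 0 < p) (hr : 0 < r) {t x : Fin n → ℝ}
    (hx : ∑ i, |x i - t i| ^ p ≤ r ^ p) :
    x ∈ ({t} : Set (Fin n → ℝ)) + r • unitBall n p := by
  refine ⟨t, rfl, x - t, ⟨r⁻¹ • (x - t), ?_, ?_⟩, by simp⟩
  · rw [mem_unitBall hp]
    have : ∀ i, |(r⁻¹ • (x - t)) i| ^ p = (r ^ p)⁻¹ * |x i - t i| ^ p := by
      intro i
      have e : (r⁻¹ • (x - t)) i = r⁻¹ * (x i - t i) := by simp
      rw [e, abs_mul, abs_of_nonneg (inv_nonneg.2 hr.le),
        Real.mul_rpow (inv_nonneg.2 hr.le) (abs_nonneg _), Real.inv_rpow hr.le]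
    rw [Finset.sum_congr rfl fun i _ => this i, ← Finset.mul_sum]
    have hrp : 0 < r ^ p := Real.rpow_pos_of_pos hr p
    rw [inv_mul_le_iff₀ hrp, mul_one]
    exact hx
  · show r • (r⁻¹ • (x - t)) = x - t
    rw [smul_smul, mul_inv_cancel₀ hr.ne', one_smul]

theorem convexOn_abs_rpow {p : ℝ} (hp : 1 ≤ p) (s : ℝ) :
    ConvexOn ℝ Set.univ (fun x : ℝ => |x - s| ^ p) := by
  have h1 : ConvexOn ℝ Set.univ (fun x : ℝ => ‖x - s‖) := by
    have := (convexOn_norm (E := ℝ) (convex_univ)).translate_left (-s)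
    simpa [sub_eq_add_neg, Function.comp_def] using this
  have h2 : ConvexOn ℝ (Set.Ici (0 : ℝ)) (fun x : ℝ => x ^ p) := convexOn_rpow hp
  refine ⟨convex_univ, ?_⟩
  intro x _ y _ a b ha hb hab
  have h3 := h1.2 (Set.mem_univ x) (Set.mem_univ y) ha hb hab
  simp only [Real.norm_eq_abs] at h3
  have h4 := h2.2 (abs_nonneg (x - s)) (abs_nonneg (y - s)) ha hb hab
  refine le_trans (Real.rpow_le_rpow (abs_nonneg _) h3 (by linarith)) h4

/-- Sublevel sets of `x ↦ ∑ |x i - t i| ^ p` are convex. -/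
theorem convex_sublevel {n : ℕ} {p : ℝ} (hp : 1 ≤ p) (t : Fin n → ℝ) (c : ℝ) :
    Convex ℝ {x : Fin n → ℝ | ∑ i, |x i - t i| ^ p ≤ c} := by
  intro x hx y hy a b ha hb hab
  have hx' : ∑ i, |x i - t i| ^ p ≤ c := hx
  have hy' : ∑ i, |y i - t i| ^ p ≤ c := hy
  show ∑ i, |(a • x + b • y) i - t i| ^ p ≤ c
  have h1 : ∀ i, |(a • x + b • y) i - t i| ^ p ≤ a * |x i - t i| ^ p + b * |y i - t i| ^ p := by
    intro i
    have := (convexOn_abs_rpow hp (t i)).2 (Set.mem_univ (x i)) (Set.mem_univ (y i)) ha hb hab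
    simpa [smul_eq_mul] using this
  calc ∑ i, |(a • x + b • y) i - t i| ^ p
      ≤ ∑ i, (a * |x i - t i| ^ p + b * |y i - t i| ^ p) := Finset.sum_le_sum fun i _ => h1 i
    _ = a * ∑ i, |x i - t i| ^ p + b * ∑ i, |y i - t i| ^ p := by
        rw [Finset.sum_add_distrib, Finset.mul_sum, Finset.mul_sum]
    _ ≤ a * c + b * c := add_le_add (mul_le_mul_of_nonneg_left hx' ha)
        (mul_le_mul_of_nonneg_left hy' hb)
    _ = c := by rw [← add_mul, hab, one_mul]

/-- The tangent line inequality for `|·| ^ p`. -/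
theorem tangent {p : ℝ} (hp : 1 ≤ p) (s : ℝ) : 1 + p * s ≤ |1 + s| ^ p := by
  rcases le_or_gt (-1) s with h | h
  · rw [abs_of_nonneg (by linarith)]
    exact one_add_mul_self_le_rpow_one_add h hp
  · have : 1 + p * s ≤ 0 := by nlinarith
    exact this.trans (Real.rpow_nonneg (abs_nonneg _) _)

theorem tangent' {p v : ℝ} (hp : 1 ≤ p) (hv : 0 < v) (s : ℝ) :
    v ^ p + p * v ^ (p - 1) * s ≤ |-v - s| ^ p := by
  have h1 := tangent hp (s / v)
  have h2 : |-v - s| = v * |1 + s / v| := by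
    rw [← abs_of_pos hv, ← abs_mul, abs_of_pos hv, mul_add, mul_div_cancel₀ _ hv.ne', mul_one]
    rw [show -v - s = -(v + s) by ring, abs_neg]
  rw [h2, Real.mul_rpow hv.le (abs_nonneg _)]
  have h3 : v ^ (p - 1) = v ^ p / v := by rw [Real.rpow_sub_one hv.ne']
  have h4 : v ^ p + p * v ^ (p - 1) * s = v ^ p * (1 + p * (s / v)) := by
    rw [h3]; field_simp
  rw [h4]
  exact mul_le_mul_of_nonneg_left h1 (Real.rpow_nonneg hv.le _)

/-! ### The two simplices -/

/-- The vertex with entry `-v` where `f k = l` and entry `1` elsewhere. -/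
def vert {n a : ℕ} (f : Fin n → Fin a) (v : ℝ) (l : Fin a) : Fin n → ℝ :=
  fun k => if f k = l then -v else 1

/-- The convex hull of the vertices. -/
def body {n a : ℕ} (f : Fin n → Fin a) (v : ℝ) : Set (Fin n → ℝ) :=
  convexHull ℝ (Set.range (vert f v))

theorem body_isConvexBody {n a : ℕ} (ha : 0 < a) (f : Fin n → Fin a) (v : ℝ) :
    IsConvexBody (body f v) := by
  refine ⟨?_, ?_, convex_convexHull ℝ _⟩
  · exact (convexHull_nonempty_iff (𝕜 := ℝ)).2 ⟨_, ⟨⟨0, ha⟩, rfl⟩⟩
  · exact (Set.finite_range _).isCompact_convexHull ℝ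

/-- Lower bound for radii of balls containing `body f v`. -/
theorem le_of_subset {n a : ℕ} (ha : 1 < a) (f : Fin n → Fin a) {p v r : ℝ} (hp : 1 ≤ p)
    (hv : 0 < v) (hva : v ^ (p - 1) = a - 1) (hr : 0 ≤ r) {t : Fin n → ℝ}
    (h : body f v ⊆ {t} + r • unitBall n p) :
    (n : ℝ) * (v ^ p + (a - 1)) ≤ a * r ^ p := by
  have h1 : ∀ l : Fin a, ∑ k, |vert f v l k - t k| ^ p ≤ r ^ p := fun l =>
    sum_le_of_mem (by linarith) hr (h (subset_convexHull ℝ _ ⟨l, rfl⟩))
  have h2 : ∑ l : Fin a, ∑ k, |vert f v l k - t k| ^ p ≤ a * r ^ p := by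
    calc ∑ l : Fin a, ∑ k, |vert f v l k - t k| ^ p ≤ ∑ _l : Fin a, r ^ p :=
          Finset.sum_le_sum fun l _ => h1 l
      _ = a * r ^ p := by simp
  rw [Finset.sum_comm] at h2
  refine le_trans ?_ h2
  have h3 : ∀ k : Fin n, v ^ p + (a - 1) ≤ ∑ l : Fin a, |vert f v l k - t k| ^ p := by
    intro k
    rw [← Finset.add_sum_erase _ _ (Finset.mem_univ (f k))]
    have e1 : vert f v (f k) k = -v := by simp [vert]
    have e2 : ∀ l ∈ Finset.univ.erase (f k), 1 - p * t k ≤ |vert f v l k - t k| ^ p := by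
      intro l hl
      have hne : f k ≠ l := (Finset.ne_of_mem_erase hl).symm
      have : vert f v l k = 1 := by simp [vert, hne]
      rw [this]
      have := tangent hp (-(t k))
      have e : (1 : ℝ) + -(t k) = 1 - t k := by ring
      rw [e] at this
      linarith
    have e3 := Finset.sum_le_sum e2
    rw [Finset.sum_const, Finset.card_erase_of_mem (Finset.mem_univ _), Finset.card_univ,
      Fintype.card_fin, nsmul_eq_mul, Nat.cast_sub (by omega), Nat.cast_one] at e3
    have e4 := tangent' hp hv (t k)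
    rw [hva] at e4
    rw [e1]
    nlinarith
  calc (n : ℝ) * (v ^ p + (a - 1)) = ∑ _k : Fin n, (v ^ p + ((a : ℝ) - 1)) := by
        rw [Finset.sum_const, nsmul_eq_mul, Finset.card_univ, Fintype.card_fin]
    _ ≤ _ := Finset.sum_le_sum fun k _ => h3 k

/-- `body f v` lies in some ball. -/
theorem exists_ball {n a : ℕ} (f : Fin n → Fin a) {p : ℝ} (hp : 1 ≤ p) (v : ℝ) :
    ∃ r : ℝ, 0 ≤ r ∧ ∃ t : Fin n → ℝ, body f v ⊆ {t} + r • unitBall n p := by
  set c : ℝ := ∑ l : Fin a, ∑ k, |vert f v l k| ^ p + 1 with hc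
  have hc0 : 0 ≤ ∑ l : Fin a, ∑ k, |vert f v l k| ^ p :=
    Finset.sum_nonneg fun l _ => sum_nonneg' p _
  have hc1 : 0 < c := by linarith
  refine ⟨c ^ (1 / p), Real.rpow_nonneg hc1.le _, 0, ?_⟩
  intro x hx
  apply mem_of_sum_le (by linarith) (Real.rpow_pos_of_pos hc1 _)
  have hcp : (c ^ (1 / p)) ^ p = c := by
    rw [← Real.rpow_mul hc1.le, one_div, inv_mul_cancel₀ (by linarith), Real.rpow_one]
  rw [hcp]
  refine convexHull_min ?_ (convex_sublevel hp 0 c) hx
  rintro _ ⟨l, rfl⟩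
  show ∑ i, |vert f v l i - (0 : Fin n → ℝ) i| ^ p ≤ c
  have : ∑ i, |vert f v l i - (0 : Fin n → ℝ) i| ^ p ≤ ∑ l : Fin a, ∑ k, |vert f v l k| ^ p := by
    have := Finset.single_le_sum (f := fun l => ∑ k, |vert f v l k| ^ p)
      (fun l _ => sum_nonneg' p (vert f v l)) (Finset.mem_univ l)
    simpa using this
  linarith

theorem lower {n a : ℕ} (ha : 1 < a) (f : Fin n → Fin a) {p v S : ℝ} (hp : 1 ≤ p)
    (hv : 0 < v) (hva : v ^ (p - 1) = a - 1) (hS0 : 0 ≤ S)
    (hS : (n : ℝ) * (v ^ p + (a - 1)) = a * S) :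
    S ≤ circumradius (body f v) (unitBall n p) ^ p := by
  have ha' : (0 : ℝ) < a := by exact_mod_cast (by omega : 0 < a)
  have h1 : S ^ (1 / p) ≤ circumradius (body f v) (unitBall n p) := by
    apply le_csInf
    · obtain ⟨r, hr, ht⟩ := exists_ball f hp v
      exact ⟨r, hr, ht⟩
    · rintro r ⟨hr, t, ht⟩
      have h2 := le_of_subset ha f hp hv hva hr ht
      rw [hS] at h2
      have h3 : S ≤ r ^ p := le_of_mul_le_mul_left h2 ha'
      calc S ^ (1 / p) ≤ (r ^ p) ^ (1 / p) := Real.rpow_le_rpow hS0 h3 (by positivity)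
        _ = r := by
          rw [← Real.rpow_mul hr, one_div, mul_inv_cancel₀ (by linarith), Real.rpow_one]
  calc S = (S ^ (1 / p)) ^ p := by
        rw [← Real.rpow_mul hS0, one_div, inv_mul_cancel₀ (by linarith), Real.rpow_one]
    _ ≤ _ := Real.rpow_le_rpow (Real.rpow_nonneg hS0 _) h1 (by linarith)

theorem upper {n : ℕ} {p c : ℝ} (hp : 1 ≤ p) (hc : 0 < c) (K : Set (Fin n → ℝ)) (t : Fin n → ℝ)
    (h : ∀ x ∈ K, ∑ i, |x i - t i| ^ p ≤ c) :
    circumradius K (unitBall n p) ≤ c ^ (1 / p) := by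
  apply csInf_le ⟨0, fun r hr => hr.1⟩
  refine ⟨Real.rpow_nonneg hc.le _, t, fun x hx => ?_⟩
  apply mem_of_sum_le (by linarith) (Real.rpow_pos_of_pos hc _)
  rw [← Real.rpow_mul hc.le, one_div, inv_mul_cancel₀ (by linarith), Real.rpow_one]
  exact h x hx

/-- The key computation for the vertices of the sum. -/
theorem vertex_sum (a : ℕ) (ha : 1 < a) {p v : ℝ} (hv : 0 < v) (l m : Fin a) :
    ∑ k : Fin (a * a), |(vert (fun k => (finProdFinEquiv.symm k).1) v l k
        + vert (fun k => (finProdFinEquiv.symm k).2) v m k) - 1| ^ p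
      = ((a : ℝ) - 1) ^ 2 + 2 * (a - 1) * v ^ p + (2 * v + 1) ^ p := by
  rw [show (∑ k : Fin (a * a), |(vert (fun k => (finProdFinEquiv.symm k).1) v l k
        + vert (fun k => (finProdFinEquiv.symm k).2) v m k) - 1| ^ p)
      = ∑ q : Fin a × Fin a, |((if q.1 = l then -v else 1) + (if q.2 = m then -v else 1)) - 1| ^ p
      from Equiv.sum_comp (finProdFinEquiv (m := a) (n := a)).symm (fun q : Fin a × Fin a =>
        |((if q.1 = l then -v else (1 : ℝ)) + (if q.2 = m then -v else 1)) - 1| ^ p)]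
  rw [Fintype.sum_prod_type]
  rw [← Finset.add_sum_erase _ _ (Finset.mem_univ l)]
  have c1 : ((Finset.univ.erase l).card : ℝ) = a - 1 := by
    rw [Finset.card_erase_of_mem (Finset.mem_univ _), Finset.card_univ,
      Fintype.card_fin, Nat.cast_sub (by omega), Nat.cast_one]
  have c2 : ((Finset.univ.erase m).card : ℝ) = a - 1 := by
    rw [Finset.card_erase_of_mem (Finset.mem_univ _), Finset.card_univ,
      Fintype.card_fin, Nat.cast_sub (by omega), Nat.cast_one]
  have i1 : ∑ y : Fin a, |((if l = l then -v else (1 : ℝ)) + (if y = m then -v else 1)) - 1| ^ p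
      = (2 * v + 1) ^ p + (a - 1) * v ^ p := by
    rw [← Finset.add_sum_erase _ _ (Finset.mem_univ m)]
    congr 1
    · simp only [if_true]
      rw [show -v + -v - 1 = -(2 * v + 1) by ring, abs_neg, abs_of_pos (by linarith)]
    · rw [Finset.sum_congr rfl (g := fun _ => v ^ p)]
      · rw [Finset.sum_const, nsmul_eq_mul, c2]
      · intro y hy
        rw [if_pos rfl, if_neg (Finset.ne_of_mem_erase hy)]
        rw [show -v + 1 - 1 = -v by ring, abs_neg, abs_of_pos hv]
  have i2 : ∀ x ∈ Finset.univ.erase l,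
      ∑ y : Fin a, |((if x = l then -v else (1 : ℝ)) + (if y = m then -v else 1)) - 1| ^ p
      = v ^ p + (a - 1) := by
    intro x hx
    have hxl := Finset.ne_of_mem_erase hx
    rw [← Finset.add_sum_erase _ _ (Finset.mem_univ m)]
    congr 1
    · rw [if_neg hxl, if_pos rfl]
      rw [show 1 + -v - 1 = -v by ring, abs_neg, abs_of_pos hv]
    · rw [Finset.sum_congr rfl (g := fun _ => (1 : ℝ))]
      · rw [Finset.sum_const, nsmul_eq_mul, c2, mul_one]
      · intro y hy
        rw [if_neg hxl, if_neg (Finset.ne_of_mem_erase hy)]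
        simp
  rw [i1, Finset.sum_congr rfl i2, Finset.sum_const, nsmul_eq_mul, c1]
  ring

/-- For every real `p > 2` there are two convex bodies (in some real n-space) violating the
proposed inequality; hence the statement is false for every exponent `p > 2`. -/
theorem result : ∀ p : ℝ, 2 < p → ∃ (n : ℕ) (K : Fin 2 → Set (Fin n → ℝ)), 1 ≤ n ∧
    (∀ i, IsConvexBody (K i)) ∧
    circumradius (∑ i, K i) (unitBall n p)
      < lpNorm p (fun i => circumradius (K i) (unitBall n p)) := by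
  intro p hp
  have hp0 : 0 < p := by linarith
  have hp1 : 1 ≤ p := by linarith
  -- choice of parameters
  obtain ⟨b, hb⟩ := exists_nat_gt (((3 : ℝ) ^ (p / (p - 2))) ^ (p - 1) + 1)
  have hV0 : 0 < (3 : ℝ) ^ (p / (p - 2)) := Real.rpow_pos_of_pos (by norm_num) _
  have hb1 : (1 : ℝ) < b := by
    have : 0 < ((3 : ℝ) ^ (p / (p - 2))) ^ (p - 1) := Real.rpow_pos_of_pos hV0 _
    linarith
  set a : ℕ := b + 1 with hadef
  have haR : (a : ℝ) - 1 = b := by rw [hadef]; push_cast; ring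
  have hb0 : (0 : ℝ) < b := by linarith
  have ha : 1 < a := by
    have : (0 : ℝ) < b := hb0
    have : 0 < b := by exact_mod_cast this
    omega
  set v : ℝ := (b : ℝ) ^ (1 / (p - 1)) with hvdef
  have hv : 0 < v := Real.rpow_pos_of_pos hb0 _
  have hvp : v ^ (p - 1) = b := by
    rw [hvdef, ← Real.rpow_mul hb0.le, one_div, inv_mul_cancel₀ (by linarith), Real.rpow_one]
  have hva : v ^ (p - 1) = (a : ℝ) - 1 := by rw [hvp, haR]
  have hv1 : 1 < v := Real.one_lt_rpow hb1 (by
    have : 0 < p - 1 := by linarith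
    positivity)
  have hvV : (3 : ℝ) ^ (p / (p - 2)) ≤ v := by
    have h1 : ((3 : ℝ) ^ (p / (p - 2))) ^ (p - 1) ≤ v ^ (p - 1) := by rw [hvp]; linarith
    exact (Real.rpow_le_rpow_iff hV0.le hv.le (by linarith)).1 h1
  have h3 : (3 : ℝ) ^ p ≤ v ^ (p - 2) := by
    have h1 : ((3 : ℝ) ^ (p / (p - 2))) ^ (p - 2) ≤ v ^ (p - 2) :=
      Real.rpow_le_rpow hV0.le hvV (by linarith)
    rwa [← Real.rpow_mul (by norm_num : (0 : ℝ) ≤ 3), div_mul_cancel₀ _ (by linarith)] at h1
  have hkey : (2 * v + 1) ^ p ≤ (b : ℝ) ^ 2 := by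
    have h4 : (2 * v + 1) ^ p ≤ (3 * v) ^ p := Real.rpow_le_rpow (by linarith) (by linarith) hp0.le
    have h5 : (3 * v) ^ p = 3 ^ p * v ^ p := Real.mul_rpow (by norm_num) hv.le
    have h6 : (b : ℝ) ^ 2 = v ^ (p - 2) * v ^ p := by
      rw [← hvp, ← Real.rpow_natCast, ← Real.rpow_mul hv.le, ← Real.rpow_add hv]
      congr 1
      push_cast
      ring
    rw [h6]
    refine h4.trans (h5.le.trans ?_)
    exact mul_le_mul_of_nonneg_right h3 (Real.rpow_nonneg hv.le _)
  -- the bodies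
  let f : Fin (a * a) → Fin a := fun k => (finProdFinEquiv.symm k).1
  let g : Fin (a * a) → Fin a := fun k => (finProdFinEquiv.symm k).2
  have hvpp : 0 < v ^ p := Real.rpow_pos_of_pos hv _
  set S : ℝ := a * (v ^ p + (a - 1)) with hSdef
  have ha0 : (0 : ℝ) < a := by exact_mod_cast (by omega : 0 < a)
  have hS0 : 0 ≤ S := by
    rw [hSdef, haR]; positivity
  have hSn : (((a * a : ℕ)) : ℝ) * (v ^ p + (a - 1)) = a * S := by
    rw [hSdef]; push_cast; ring
  have l1 := lower ha f hp1 hv hva hS0 hSn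
  have l2 := lower ha g hp1 hv hva hS0 hSn
  refine ⟨a * a, ![body f v, body g v], ?_, ?_, ?_⟩
  · have : 0 < a * a := Nat.mul_pos (by omega) (by omega)
    omega
  · intro i
    fin_cases i
    · exact body_isConvexBody (by omega) f v
    · exact body_isConvexBody (by omega) g v
  · rw [Fin.sum_univ_two]
    simp only [Matrix.cons_val_zero, Matrix.cons_val_one]
    set c : ℝ := ((a : ℝ) - 1) ^ 2 + 2 * (a - 1) * v ^ p + (2 * v + 1) ^ p with hc
    have hc0 : 0 < c := by
      rw [hc, haR]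
      have : 0 < (2 * v + 1) ^ p := Real.rpow_pos_of_pos (by linarith) _
      positivity
    have hcS : c < S + S := by
      rw [hc, hSdef, haR]
      have : (a : ℝ) = b + 1 := by linarith
      rw [this]
      nlinarith
    have hup : circumradius (body f v + body g v) (unitBall (a * a) p) ≤ c ^ (1 / p) := by
      apply upper hp1 hc0 _ (fun _ => 1)
      intro x hx
      unfold body at hx
      rw [← convexHull_add] at hx
      refine convexHull_min ?_ (convex_sublevel hp1 (fun _ => 1) c) hx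
      rintro _ ⟨_, ⟨l, rfl⟩, _, ⟨m, rfl⟩, rfl⟩
      exact (vertex_sum a ha hv l m).le
    refine hup.trans_lt ?_
    unfold lpNorm
    apply Real.rpow_lt_rpow hc0.le _ (by positivity)
    rw [Fin.sum_univ_two]
    simp only [Matrix.cons_val_zero, Matrix.cons_val_one]
    have n1 : 0 ≤ circumradius (body f v) (unitBall (a * a) p) :=
      Real.sInf_nonneg fun r hr => hr.1
    have n2 : 0 ≤ circumradius (body g v) (unitBall (a * a) p) :=
      Real.sInf_nonneg fun r hr => hr.1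
    rw [abs_of_nonneg n1, abs_of_nonneg n2]
    linarith

end Pool.Agent.Results.MP_a85856_gt.FailsForEveryP
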